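import Mathlib

/-!
# Abstract pigeonhole for short paths

`R a x y` : there is a path from `x` to `y` of cost at most `a`.  A vector space `V` over `ZMod 2`
acts on the states and preserves `R`.  `L` is a set of low states which has at most `N0` orbits.
Every path of cost at least `g` passes, with cost at most `g` from its start, through a state `u`
which has a round trip of cost `P` to a low state.  Then every reachable pair of states is joined
by a path of polynomially bounded cost.
-/

namespace Pool.Agent.helper14.NT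

variable {X V : Type*} [AddCommGroup V] [Module (ZMod 2) V] [AddAction V X]

/-- Axioms of the relation: there is a path of cost at most a. -/
structure CostRel (V : Type*) [AddCommGroup V] [AddAction V X] (R : ℕ → X → X → Prop) : Prop where
  refl : ∀ x, R 0 x x
  trans : ∀ {a b x y z}, R a x y → R b y z → R (a + b) x z
  cut : ∀ {a b x y}, R (a + b) x y → ∃ z, R a x z ∧ R b z y
  mono : ∀ {a b x y}, a ≤ b → R a x y → R b x y
  inv : ∀ {a x y} (v : V), R a x y → R a (v +ᵥ x) (v +ᵥ y)

/-- The gap property (for shortest paths). -/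
def Gap (R : ℕ → X → X → Prop) (L : Set X) (P g : ℕ) : Prop :=
  ∀ a x y, g ≤ a → R a x y → (∀ b, R b x y → a ≤ b) → ∃ u l a1 a2, l ∈ L ∧ a1 ≤ g ∧ a1 + a2 = a ∧
    R a1 x u ∧ R a2 u y ∧ R P u l ∧ R P l u

omit [Module (ZMod 2) V] in
lemma seq_points {R : ℕ → X → X → Prop} (hR : CostRel V R) {L : Set X} {P g K : ℕ}
    (hg : Gap R L P g) :
    ∀ (N a : ℕ) (x y : X), N * (K + g) + g ≤ a → R a x y → (∀ b, R b x y → a ≤ b) →
      ∃ (u l : ℕ → X) (c : ℕ → ℕ), ∀ i ≤ N, l i ∈ L ∧ c i ≤ a ∧ R (c i) x (u i) ∧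
        R (a - c i) (u i) y ∧ R P (u i) (l i) ∧ R P (l i) (u i) ∧
        ∀ j ≤ N, i < j → c i + K ≤ c j ∧ ∃ b, R b (u i) (u j) := by
  intro N
  induction N with
  | zero =>
      intro a x y ha h hmi
      obtain ⟨u, l, a1, a2, hl, h1, h2, h3, h4, h5, h6⟩ := hg a x y (by omega) h hmi
      refine ⟨fun _ => u, fun _ => l, fun _ => a1, ?_⟩
      intro i hi
      refine ⟨hl, by show a1 ≤ a; omega, h3, ?_, h5, h6, ?_⟩
      · show R (a - a1) u y
        have : a - a1 = a2 := by omega
        rw [this]; exact h4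
      · intro j hj hij; omega
  | succ N ih =>
      intro a x y ha h hmi
      have hmul : (N + 1) * (K + g) = N * (K + g) + (K + g) := by ring
      obtain ⟨u, l, a1, a2, hl, h1, h2, h3, h4, h5, h6⟩ := hg a x y (by omega) h hmi
      have hsplit : a2 = K + (a2 - K) := by omega
      rw [hsplit] at h4
      obtain ⟨z, hz1, hz2⟩ := hR.cut h4
      obtain ⟨u', l', c', H⟩ := ih (a2 - K) z y (by omega) hz2 (fun b hb => by
        have := hmi _ (hR.trans (hR.trans h3 hz1) hb)
        omega)
      refine ⟨fun i => Nat.casesOn i u (fun k => u' k), fun i => Nat.casesOn i l (fun k => l' k),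
        fun i => Nat.casesOn i a1 (fun k => a1 + K + c' k), ?_⟩
      intro i hi
      cases i with
      | zero =>
          refine ⟨hl, by show a1 ≤ a; omega, h3, ?_, h5, h6, ?_⟩
          · show R (a - a1) u y
            have : a - a1 = K + (a2 - K) := by omega
            rw [this]; exact h4
          · intro j hj hij
            cases j with
            | zero => omega
            | succ j =>
                obtain ⟨-, -, H3, -⟩ := H j (by omega)
                refine ⟨by show a1 + K ≤ a1 + K + c' j; omega, K + c' j, ?_⟩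
                exact hR.trans hz1 H3
      | succ i =>
          obtain ⟨H1, H2, H3, H4, H5, H6, H7⟩ := H i (by omega)
          refine ⟨H1, by show a1 + K + c' i ≤ a; omega, ?_, ?_, H5, H6, ?_⟩
          · exact hR.trans (hR.trans h3 hz1) H3
          · show R (a - (a1 + K + c' i)) (u' i) y
            have : a - (a1 + K + c' i) = a2 - K - c' i := by omega
            rw [this]; exact H4
          · intro j hj hij
            cases j with
            | zero => omega
            | succ j =>
                obtain ⟨H8, H9⟩ := H7 j (by omega) (by omega)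
                exact ⟨by show a1 + K + c' i + K ≤ a1 + K + c' j; omega, H9⟩

section
variable [FiniteDimensional (ZMod 2) V]

lemma zmod2_cases (c : ZMod 2) : c = 0 ∨ c = 1 := by
  revert c; decide

omit [FiniteDimensional (ZMod 2) V] in
lemma v_add_self (v : V) : v + v = 0 := by
  have : (2 : ZMod 2) • v = 0 := by
    have h2 : (2 : ZMod 2) = 0 := by decide
    rw [h2, zero_smul]
  rwa [two_smul] at this

omit [FiniteDimensional (ZMod 2) V] in
lemma loop_sum {R : ℕ → X → X → Prop} (hR : CostRel V R) {Q : ℕ} {s : X} (c : V → ZMod 2)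
    (t : Finset V) (ht : ∀ v ∈ t, R Q s (v +ᵥ s)) :
    R (t.card * Q) s ((∑ v ∈ t, c v • v) +ᵥ s) := by
  classical
  induction t using Finset.induction_on with
  | empty => simpa using hR.refl s
  | insert v t hv ih =>
      have ih' := ih (fun w hw => ht w (Finset.mem_insert_of_mem hw))
      rw [Finset.sum_insert hv, Finset.card_insert_of_notMem hv]
      rcases zmod2_cases (c v) with h | h
      · rw [h, zero_smul, zero_add]
        exact hR.mono (by nlinarith) ih'
      · rw [h, one_smul, add_vadd]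
        have h1 := ht v (Finset.mem_insert_self v t)
        have h2 := hR.inv v ih'
        have h3 := hR.trans h1 h2
        exact hR.mono (by ring_nf; omega) h3

/-- Loops: if `s` reaches `h + s` then `h` is a sum of short loops. -/
lemma loop_short {R : ℕ → X → X → Prop} (hR : CostRel V R) {L : Set X} {P g n N0 : ℕ}
    (hn : Module.finrank (ZMod 2) V ≤ n) (hg : Gap R L P g) (f : X → Fin N0)
    (hf : ∀ l ∈ L, ∀ l' ∈ L, f l = f l' → ∃ v : V, l' = v +ᵥ l)
    (s : X) (h : V) (hs : ∃ a, R a s (h +ᵥ s)) :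
    R (n * (2 * N0 * (2 * P + 1 + g) + g)) s (h +ᵥ s) := by
  classical
  set Q := 2 * N0 * (2 * P + 1 + g) + g with hQ
  set S : Set V := {v | R Q s (v +ᵥ s)} with hS
  have hspan : h ∈ Submodule.span (ZMod 2) S := by
    by_contra hcon
    obtain ⟨φ, hφ1, hφ2⟩ : ∃ φ : V →ₗ[ZMod 2] ZMod 2, φ h ≠ 0 ∧
        ∀ v ∈ Submodule.span (ZMod 2) S, φ v = 0 := by
      obtain ⟨φ, h1, h2⟩ := Submodule.exists_le_ker_of_notMem hcon
      exact ⟨φ, h1, fun v hv => h2 hv⟩
    have hex : ∃ a, ∃ v : V, φ v ≠ 0 ∧ R a s (v +ᵥ s) := by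
      obtain ⟨a, ha⟩ := hs
      exact ⟨a, h, hφ1, ha⟩
    obtain ⟨v0, hv0, hr0⟩ := Nat.find_spec hex
    have hmin : ∀ b, (∃ v : V, φ v ≠ 0 ∧ R b s (v +ᵥ s)) → Nat.find hex ≤ b :=
      fun b hb => Nat.find_min' hex hb
    set a := Nat.find hex with ha
    rcases Nat.lt_or_ge a Q with hlt | hge
    · apply hv0
      apply hφ2
      exact Submodule.subset_span (hR.mono hlt.le hr0)
    · obtain ⟨u, l, c, H⟩ := seq_points hR (K := 2 * P + 1) hg (2 * N0) a s (v0 +ᵥ s)
        (by rw [hQ] at hge; exact hge) hr0 (fun b hb => hmin b ⟨v0, hv0, hb⟩)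
      -- representatives
      have hrep : ∃ rep : Fin N0 → X, ∀ x ∈ L, ∃ v : V, x = v +ᵥ rep (f x) := by
        have : ∀ k : Fin N0, ∃ r : X, ∀ x ∈ L, f x = k → ∃ v : V, x = v +ᵥ r := by
          intro k
          by_cases hk : ∃ x ∈ L, f x = k
          · obtain ⟨r, hr, hrk⟩ := hk
            exact ⟨r, fun x hx hxk => hf r hr x hx (by rw [hrk, hxk])⟩
          · exact ⟨s, fun x hx hxk => absurd ⟨x, hx, hxk⟩ hk⟩
        choose rep hrep using this
        exact ⟨rep, fun x hx => hrep (f x) x hx rfl⟩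
      obtain ⟨rep, hrep⟩ := hrep
      have hv : ∀ i : Fin (2 * N0 + 1), ∃ v : V, l i = v +ᵥ rep (f (l i)) :=
        fun i => hrep _ (H i (by omega)).1
      choose v hv using hv
      obtain ⟨i, j, hij, he⟩ := Fintype.exists_ne_map_eq_of_card_lt
        (fun i : Fin (2 * N0 + 1) => (f (l i), φ (v i))) (by
          simp [Fintype.card_prod, ZMod.card, mul_comm])
      wlog hlt : i < j generalizing i j
      · exact this j i hij.symm he.symm (lt_of_le_of_ne (not_lt.mp hlt) hij.symm)
      simp only [Prod.mk.injEq] at he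
      obtain ⟨he1, he2⟩ := he
      set m : V := v j + v i with hm
      have hφm : φ m = 0 := by
        rw [hm, map_add, he2]
        rcases zmod2_cases (φ (v j)) with h | h <;> rw [h] <;> decide
      have hlj : l i = m +ᵥ l j := by
        rw [hv j, ← he1, hm, add_comm (v j) (v i), add_vadd, ← add_vadd (v j) (v j), v_add_self,
          zero_vadd]
        exact hv i
      obtain ⟨-, i2, i3, i4, i5, i6, i7⟩ := H i (by omega)
      obtain ⟨-, j2, j3, j4, j5, j6, -⟩ := H j (by omega)
      obtain ⟨hc, -⟩ := i7 j (by omega) hlt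
      have e1 : R (c i + P) s (m +ᵥ l j) := hlj ▸ hR.trans i3 i5
      have e2 : R P (m +ᵥ l j) (m +ᵥ u j) := hR.inv m j6
      have e3 : R (a - c j) (m +ᵥ u j) (m +ᵥ (v0 +ᵥ s)) := hR.inv m j4
      have e4 := hR.trans (hR.trans e1 e2) e3
      rw [← add_vadd] at e4
      have := hmin _ ⟨m + v0, by rw [map_add, hφm, zero_add]; exact hv0, e4⟩
      omega
  obtain ⟨b, hbS, hbs, hbl⟩ := exists_linearIndependent (ZMod 2) S
  rw [← hbs] at hspan
  have : Finite b := hbl.finite
  have : Fintype b := Fintype.ofFinite b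
  have hcard : Fintype.card b ≤ n := hbl.fintype_card_le_finrank.trans hn
  have hb' : b = ((b.toFinset : Finset V) : Set V) := by simp
  rw [hb', Submodule.mem_span_finset] at hspan
  obtain ⟨c, -, hc⟩ := hspan
  have h1 := loop_sum hR c b.toFinset (Q := Q) (s := s) (fun w hw => hbS (Set.mem_toFinset.mp hw))
  rw [hc] at h1
  refine hR.mono ?_ h1
  rw [Set.toFinset_card]
  exact Nat.mul_le_mul_right Q hcard

/-- **The abstract theorem.** -/
theorem abstract_bound {R : ℕ → X → X → Prop} (hR : CostRel V R) {L : Set X} {P g n N0 : ℕ}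
    (hn : Module.finrank (ZMod 2) V ≤ n) (hg : Gap R L P g) (f : X → Fin N0)
    (hf : ∀ l ∈ L, ∀ l' ∈ L, f l = f l' → ∃ v : V, l' = v +ᵥ l)
    (x y : X) (hxy : ∃ a, R a x y) :
    R (N0 * (2 * P + n * (2 * N0 * (2 * P + 1 + g) + g) + 1 + g) + g) x y := by
  classical
  set Q := n * (2 * N0 * (2 * P + 1 + g) + g) with hQ
  have hmin : ∀ b, R b x y → Nat.find hxy ≤ b := fun b hb => Nat.find_min' hxy hb
  have hr := Nat.find_spec hxy
  set a := Nat.find hxy with ha
  rcases Nat.lt_or_ge a (N0 * (2 * P + Q + 1 + g) + g) with hlt | hge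
  · exact hR.mono hlt.le hr
  · exfalso
    obtain ⟨u, l, c, H⟩ := seq_points hR (K := 2 * P + Q + 1) hg N0 a x y hge hr hmin
    obtain ⟨i, j, hij, he⟩ := Fintype.exists_ne_map_eq_of_card_lt
      (fun i : Fin (N0 + 1) => f (l i)) (by simp)
    wlog hlt : i < j generalizing i j
    · exact this j i hij.symm he.symm (lt_of_le_of_ne (not_lt.mp hlt) hij.symm)
    obtain ⟨i1, i2, i3, i4, i5, i6, i7⟩ := H i (by omega)
    obtain ⟨j1, j2, j3, j4, j5, j6, -⟩ := H j (by omega)
    obtain ⟨hc, b, hb⟩ := i7 j (by omega) hlt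
    obtain ⟨v, hv⟩ := hf _ i1 _ j1 he
    have e1 : R Q (l i) (l j) := by
      rw [hv]
      exact loop_short hR hn hg f hf (l i) v ⟨_, hv ▸ hR.trans (hR.trans i6 hb) j5⟩
    have e2 := hR.trans (hR.trans (hR.trans (hR.trans i3 i5) e1) j6) j4
    have := hmin _ e2
    omega

end

end Pool.Agent.helper14.NT
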